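import Pool.Agent.Q165.EN3Def
import Pool.Agent.Q165.EN3Sum

/-!
# Inversions of the 2143-avoiding linear extensions of the rectangle with three columns
-/

set_option autoImplicit false

namespace Pool.Agent.Results.MP_071fcf_co.InversionPolynomial

open Q165.EN3 Polynomial

/-- For every `s ≥ 1` and every nonzero element `q` of a field, the inversion generating
function of `EN_{s,3}(2143)` at `q` is `q ^ (9 * choose s 2) * F_s (1 / q)`. -/
theorem result : ∀ s : ℕ, 1 ≤ s → ∀ (K : Type) [Field K] (q : K), q ≠ 0 →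
    ∑ π ∈ EN s 3, q ^ inv π = q ^ (9 * s.choose 2) * aeval (1 / q) (F s) := by
  intro s hs K _ q hq
  obtain ⟨n, rfl⟩ : ∃ n, s = n + 1 := ⟨s - 1, by omega⟩
  rw [sum_EN hq n, (S_eq q⁻¹ n).1, one_div]

end Pool.Agent.Results.MP_071fcf_co.InversionPolynomial
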